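import Mathlib
import Pool.Agent.W844.GP.Defs

/-!
# Part GP-SUM: law of large numbers with a rate for almost local functions
-/

set_option autoImplicit false

open Finset MeasureTheory ProbabilityTheory Filter Topology
open scoped ENNReal

namespace Pool.Agent.W948.GP

open Pool.Agent.W844.VG (V stp nm)
open Pool.Agent.W844.GP

variable {d : ℕ}

theorem law_prob (ν : Measure ℝ) [IsProbabilityMeasure ν] : IsProbabilityMeasure (law ν d) := by
  unfold law; infer_instance

theorem law_sh (ν : Measure ℝ) [IsProbabilityMeasure ν] (a : V d) :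
    MeasurePreserving (sh a) (law ν d) (law ν d) where
  measurable := measurable_pi_lambda _ fun _ => measurable_pi_apply _
  map_eq := by
    unfold law
    exact Measure.map_infinitePi_infinitePi_of_inj (P := fun _ : V d => ν)
      (f := fun x : V d => x + a) (add_left_injective a)

section
variable {Ω : Type} [MeasurableSpace Ω] {μ : Measure Ω} [IsProbabilityMeasure μ]

lemma cov_le {X Y : Ω → ℝ} (hX : MemLp X 2 μ) (hY : MemLp Y 2 μ) {v : ℝ}
    (h1 : Var[X; μ] ≤ v) (h2 : Var[Y; μ] ≤ v) : cov[X, Y; μ] ≤ v := by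
  have h := variance_sub hX hY
  have h0 := variance_nonneg (X - Y) μ
  linarith

lemma var_bound (m K : ℕ) (X : ℕ → Ω → ℝ) (hX : ∀ j, MemLp (X j) 2 μ) (v : ℝ)
    (hv : ∀ j, Var[X j; μ] ≤ v) (hind : ∀ j j', j + K < j' → cov[X j, X j'; μ] = 0) :
    Var[∑ j ∈ range m, X j; μ] ≤ m * ((2 * K + 1) * v) := by
  have hv0 : 0 ≤ v := (variance_nonneg (X 0) μ).trans (hv 0)
  rw [variance_sum' fun i _ => hX i]
  have h1 : ∀ j ∈ range m, ∑ j' ∈ range m, cov[X j, X j'; μ] ≤ (2 * K + 1) * v := by
    intro j _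
    calc ∑ j' ∈ range m, cov[X j, X j'; μ]
        ≤ ∑ j' ∈ range m, (if j' ≤ j + K ∧ j ≤ j' + K then v else 0) := by
          apply Finset.sum_le_sum
          intro j' _
          split_ifs with h
          · exact cov_le (hX j) (hX j') (hv j) (hv j')
          · apply le_of_eq
            by_cases h2 : j' ≤ j + K
            · rw [covariance_comm]
              exact hind j' j (by
                by_contra h3
                exact h ⟨h2, by omega⟩)
            · exact hind j j' (by omega)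
      _ = ((range m).filter fun j' => j' ≤ j + K ∧ j ≤ j' + K).card * v := by
          rw [← Finset.sum_filter, Finset.sum_const, nsmul_eq_mul]
      _ ≤ (2 * K + 1) * v := by
          apply mul_le_mul_of_nonneg_right _ hv0
          have h3 : ((range m).filter fun j' => j' ≤ j + K ∧ j ≤ j' + K).card ≤ 2 * K + 1 := by
            calc _ ≤ (Finset.Icc (j - K) (j + K)).card := by
                  apply Finset.card_le_card
                  intro x hx
                  rw [Finset.mem_filter] at hx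
                  rw [Finset.mem_Icc]
                  omega
              _ ≤ _ := by
                  rw [Nat.card_Icc]
                  omega
          exact_mod_cast h3
  calc _ ≤ ∑ _j ∈ range m, (2 * K + 1) * v := Finset.sum_le_sum h1
    _ = _ := by rw [Finset.sum_const, card_range, nsmul_eq_mul]

lemma real_of {Z : Ω → ℝ≥0∞} (hZ : Measurable Z) {C a : ℝ} (hC : 0 ≤ C) (ha : 0 ≤ a)
    (h2 : ∫⁻ w, Z w ^ 2 ∂μ ≤ ENNReal.ofReal C) (h1 : ∫⁻ w, Z w ∂μ ≤ ENNReal.ofReal a) :
    MemLp (fun w => (Z w).toReal) 2 μ ∧ Var[fun w => (Z w).toReal; μ] ≤ C ∧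
      ∫ w, (Z w).toReal ∂μ ≤ a ∧ ∀ᵐ w ∂μ, Z w < ∞ := by
  have hfin : ∀ᵐ w ∂μ, Z w < ∞ :=
    ae_lt_top hZ (ne_top_of_le_ne_top ENNReal.ofReal_ne_top h1)
  have hfin2 : ∀ᵐ w ∂μ, Z w ^ 2 < ∞ :=
    ae_lt_top (hZ.pow_const 2) (ne_top_of_le_ne_top ENNReal.ofReal_ne_top h2)
  have hm : AEStronglyMeasurable (fun w => (Z w).toReal) μ :=
    hZ.ennreal_toReal.aestronglyMeasurable
  have hint : Integrable (fun w => (Z w ^ 2).toReal) μ :=
    integrable_toReal_of_lintegral_ne_top (hZ.pow_const 2).aemeasurable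
      (ne_top_of_le_ne_top ENNReal.ofReal_ne_top h2)
  have e : (fun w => (Z w ^ 2).toReal) = fun w => ((Z w).toReal) ^ 2 := by
    funext w
    rw [ENNReal.toReal_pow]
  have hmem : MemLp (fun w => (Z w).toReal) 2 μ := by
    rw [memLp_two_iff_integrable_sq hm]
    rw [e] at hint
    exact hint
  refine ⟨hmem, ?_, ?_, hfin⟩
  · refine (variance_le_expectation_sq hm).trans ?_
    have e2 : ∫ w, ((fun w => (Z w).toReal) ^ 2) w ∂μ = (∫⁻ w, Z w ^ 2 ∂μ).toReal := by
      rw [← integral_toReal (hZ.pow_const 2).aemeasurable hfin2]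
      apply integral_congr_ae
      filter_upwards with w
      rw [Pi.pow_apply, ENNReal.toReal_pow]
    rw [e2]
    exact ENNReal.toReal_le_of_le_ofReal hC h2
  · rw [integral_toReal hZ.aemeasurable hfin]
    exact ENNReal.toReal_le_of_le_ofReal ha h1

end

theorem sum (hind : S_IND) : S_SUM := by
  intro d i ν _ h hh W Wr C a hW hWr hdep hC ha hdiff hsq hmean ε hε
  have hprob := law_prob (d := d) ν
  refine ⟨6 * C + 11 * C / ε ^ 2, fun m hm => ?_⟩
  obtain ⟨s, hs⟩ : ∃ s : ℝ, s = Real.sqrt m := ⟨_, rfl⟩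
  have hm1 : (1 : ℝ) ≤ m := by exact_mod_cast hm
  have hs2 : s ^ 2 = m := by rw [hs, Real.sq_sqrt (by linarith)]
  have hs1 : 1 ≤ s := by rw [hs]; exact Real.one_le_sqrt.2 hm1
  obtain ⟨r, hr⟩ : ∃ r : ℕ, r = ⌈s⌉₊ := ⟨_, rfl⟩
  have hr1 : s ≤ r := by rw [hr]; exact Nat.le_ceil s
  have hr2 : (r : ℝ) ≤ s + 1 := by rw [hr]; exact (Nat.ceil_lt_add_one (by linarith)).le
  obtain ⟨X, hX⟩ : ∃ X : ℕ → (V d → ℝ) → ℝ,
      X = fun (j : ℕ) w => (Wr r (sh (pt i ((j : ℤ) * h)) w)).toReal := ⟨_, rfl⟩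
  have hshm : ∀ a : V d, Measurable (sh a) := fun a => (law_sh ν a).measurable
  have hZm : ∀ j : ℕ, Measurable fun w : V d → ℝ => Wr r (sh (pt i ((j : ℤ) * h)) w) :=
    fun j => (hWr r).comp (hshm _)
  have hXr : ∀ j, MemLp (X j) 2 (law ν d) ∧ Var[X j; law ν d] ≤ C ∧
      ∫ w, X j w ∂law ν d ≤ a ∧
      ∀ᵐ w ∂law ν d, Wr r (sh (pt i ((j : ℤ) * h)) w) < ∞ := by
    intro j
    rw [hX]
    apply real_of (hZm j) hC ha
    · have := (law_sh ν (pt i ((j : ℤ) * h))).lintegral_comp
        (f := fun w => Wr r w ^ 2) ((hWr r).pow_const 2)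
      rw [this]
      exact hsq r
    · have := (law_sh ν (pt i ((j : ℤ) * h))).lintegral_comp (hWr r)
      rw [this]
      exact hmean r
  have hcov : ∀ j j', j + (1 + 2 * r) < j' → cov[X j, X j'; law ν d] = 0 := by
    intro j j' hjj
    apply IndepFun.covariance_eq_zero _ (hXr j).1 (hXr j').1
    have hdepX : ∀ j : ℕ, DependsOn (X j) {x : V d | (j : ℤ) * h - r ≤ x i ∧
        x i ≤ (j : ℤ) * h + h + r} := by
      intro j w w' hww
      rw [hX]
      have : Wr r (sh (pt i ((j : ℤ) * h)) w) = Wr r (sh (pt i ((j : ℤ) * h)) w') := by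
        apply hdep r
        intro x hx
        apply hww
        have e : (x + pt i ((j : ℤ) * h)) i = x i + (j : ℤ) * h := by
          simp [pt]
        obtain ⟨hx1, hx2⟩ := hx
        constructor
        · rw [e]; linarith
        · rw [e]; linarith
      show (Wr r (sh (pt i ((j : ℤ) * h)) w)).toReal = _
      rw [this]
    apply hind d ν ℝ ℝ (X j) (X j') _ _ ?_ ?_ (hdepX j) (hdepX j') ?_
    · rw [hX]; exact (hZm j).ennreal_toReal
    · rw [hX]; exact (hZm j').ennreal_toReal
    · rw [Set.disjoint_left]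
      rintro x ⟨_, h1⟩ ⟨h2, _⟩
      have h3 : (j : ℤ) + 2 + 2 * r ≤ j' := by
        have : j + 2 + 2 * r ≤ j' := by omega
        exact_mod_cast this
      have h4 : (1 : ℤ) ≤ h := by exact_mod_cast hh
      have h5 : ((j : ℤ) + 2 + 2 * r) * h ≤ j' * h :=
        mul_le_mul_of_nonneg_right h3 (by linarith)
      have h6 : (r : ℤ) * 1 ≤ r * h := mul_le_mul_of_nonneg_left h4 (by positivity)
      nlinarith
  have hvar := var_bound (μ := law ν d) m (1 + 2 * r) X (fun j => (hXr j).1) C
    (fun j => (hXr j).2.1) hcov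
  have hSmem : MemLp (∑ j ∈ range m, X j) 2 (law ν d) :=
    memLp_finsetSum' _ fun j _ => (hXr j).1
  have hmean2 : ∫ w, (∑ j ∈ range m, X j) w ∂law ν d ≤ a * m := by
    have e : ∫ w, (∑ j ∈ range m, X j) w ∂law ν d = ∑ j ∈ range m, ∫ w, X j w ∂law ν d := by
      simp_rw [Finset.sum_apply]
      exact integral_finsetSum _ fun j _ => (hXr j).1.integrable one_le_two
    rw [e]
    calc _ ≤ ∑ _j ∈ range m, a := Finset.sum_le_sum fun j _ => (hXr j).2.2.1
      _ = a * m := by rw [Finset.sum_const, card_range, nsmul_eq_mul, mul_comm]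
  have hεm : 0 < ε * m := by positivity
  have hcheb := meas_ge_le_variance_div_sq hSmem hεm
  -- the three events
  have hsub : {w : V d → ℝ | ENNReal.ofReal ((a + ε) * m) ≤
      ∑ j ∈ range m, W (sh (pt i (j * h)) w)} ⊆
      ((⋃ j ∈ range m, {w | W (sh (pt i ((j : ℤ) * h)) w) ≠ Wr r (sh (pt i ((j : ℤ) * h)) w)}) ∪
      (⋃ j ∈ range m, {w | ¬ Wr r (sh (pt i ((j : ℤ) * h)) w) < ∞})) ∪
      {w | ε * m ≤ |(∑ j ∈ range m, X j) w - ∫ w, (∑ j ∈ range m, X j) w ∂law ν d|} := by
    intro w hw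
    by_cases h1 : ∃ j ∈ range m,
        W (sh (pt i ((j : ℤ) * h)) w) ≠ Wr r (sh (pt i ((j : ℤ) * h)) w)
    · obtain ⟨j, hj, hne⟩ := h1
      left; left
      rw [Set.mem_iUnion₂]
      exact ⟨j, hj, hne⟩
    by_cases h2 : ∃ j ∈ range m, ¬ Wr r (sh (pt i ((j : ℤ) * h)) w) < ∞
    · obtain ⟨j, hj, hne⟩ := h2
      left; right
      rw [Set.mem_iUnion₂]
      exact ⟨j, hj, hne⟩
    push Not at h1 h2
    right
    have e : ∑ j ∈ range m, W (sh (pt i (j * h)) w) =
        ENNReal.ofReal ((∑ j ∈ range m, X j) w) := by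
      rw [Finset.sum_apply, ENNReal.ofReal_sum_of_nonneg]
      · apply Finset.sum_congr rfl
        intro j hj
        rw [h1 j hj, hX]
        exact (ENNReal.ofReal_toReal (h2 j hj).ne).symm
      · intro j _
        rw [hX]
        exact ENNReal.toReal_nonneg
    have h0 : 0 ≤ (∑ j ∈ range m, X j) w := by
      rw [Finset.sum_apply]
      apply Finset.sum_nonneg
      intro j _
      rw [hX]
      exact ENNReal.toReal_nonneg
    have h3 : ENNReal.ofReal ((a + ε) * m) ≤ ENNReal.ofReal ((∑ j ∈ range m, X j) w) := by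
      rw [← e]
      exact hw
    rw [ENNReal.ofReal_le_ofReal_iff h0] at h3
    show ε * m ≤ |(∑ j ∈ range m, X j) w - ∫ w, (∑ j ∈ range m, X j) w ∂law ν d|
    refine le_trans ?_ (le_abs_self _)
    linarith
  refine (measure_mono hsub).trans ((measure_union_le _ _).trans ?_)
  have hb1 : law ν d (⋃ j ∈ range m,
      {w | W (sh (pt i ((j : ℤ) * h)) w) ≠ Wr r (sh (pt i ((j : ℤ) * h)) w)}) ≤
      ENNReal.ofReal (6 * C / s) := by
    refine (measure_biUnion_finset_le _ _).trans ?_
    have hj : ∀ j ∈ range m, law ν d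
        {w | W (sh (pt i ((j : ℤ) * h)) w) ≠ Wr r (sh (pt i ((j : ℤ) * h)) w)} ≤
        ENNReal.ofReal (C * Real.exp (-r)) := by
      intro j _
      have hms : MeasurableSet {w : V d → ℝ | W w ≠ Wr r w} :=
        (measurableSet_eq_fun hW (hWr r)).compl
      have := (law_sh ν (pt i ((j : ℤ) * h))).measure_preimage hms.nullMeasurableSet
      rw [Set.preimage_ofPred_eq] at this
      rw [this]
      exact hdiff r
    refine (Finset.sum_le_sum hj).trans ?_
    rw [Finset.sum_const, card_range, nsmul_eq_mul, ← ENNReal.ofReal_natCast,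
      ← ENNReal.ofReal_mul (by positivity)]
    apply ENNReal.ofReal_le_ofReal
    have h1 : Real.exp (-r) ≤ 6 / s ^ 3 := by
      have h2 := Real.pow_div_factorial_le_exp (x := s) (by linarith) 3
      have h3 : Real.exp (-r) ≤ Real.exp (-s) := Real.exp_le_exp.2 (by linarith)
      refine h3.trans ?_
      rw [Real.exp_neg, inv_eq_one_div, div_le_div_iff₀ (Real.exp_pos _) (by positivity)]
      have h4 : ((3 : ℕ).factorial : ℝ) = 6 := by norm_num [Nat.factorial]
      rw [h4, div_le_iff₀ (by norm_num)] at h2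
      linarith
    calc (m : ℝ) * (C * Real.exp (-r)) ≤ s ^ 2 * (C * (6 / s ^ 3)) := by
          rw [← hs2]
          gcongr
      _ = 6 * C / s := by
          field_simp
  have hb2 : law ν d (⋃ j ∈ range m, {w | ¬ Wr r (sh (pt i ((j : ℤ) * h)) w) < ∞}) = 0 := by
    refine le_antisymm ((measure_biUnion_finset_le _ _).trans ?_) bot_le
    rw [Finset.sum_eq_zero]
    intro j _
    exact (hXr j).2.2.2
  have hb3 : law ν d {w | ε * m ≤ |(∑ j ∈ range m, X j) w -
      ∫ w, (∑ j ∈ range m, X j) w ∂law ν d|} ≤ ENNReal.ofReal (11 * C / ε ^ 2 / s) := by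
    refine hcheb.trans ?_
    apply ENNReal.ofReal_le_ofReal
    calc Var[∑ j ∈ range m, X j; law ν d] / (ε * m) ^ 2
        ≤ (m * ((2 * ((1 + 2 * r : ℕ) : ℝ) + 1) * C)) / (ε * m) ^ 2 :=
          div_le_div_of_nonneg_right hvar (by positivity)
      _ = ((4 * r + 3) * C) / (ε ^ 2 * m) := by
          push_cast
          field_simp
          ring
      _ ≤ ((11 * s) * C) / (ε ^ 2 * m) := by
          apply div_le_div_of_nonneg_right _ (by positivity)
          apply mul_le_mul_of_nonneg_right _ hC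
          linarith
      _ = 11 * C / ε ^ 2 / s := by
          rw [← hs2]
          field_simp
  calc _ ≤ (law ν d (⋃ j ∈ range m,
        {w | W (sh (pt i ((j : ℤ) * h)) w) ≠ Wr r (sh (pt i ((j : ℤ) * h)) w)}) +
        law ν d (⋃ j ∈ range m, {w | ¬ Wr r (sh (pt i ((j : ℤ) * h)) w) < ∞})) +
        law ν d {w | ε * m ≤ |(∑ j ∈ range m, X j) w -
          ∫ w, (∑ j ∈ range m, X j) w ∂law ν d|} := by
          gcongr
          exact measure_union_le _ _
    _ ≤ (ENNReal.ofReal (6 * C / s) + 0) + ENNReal.ofReal (11 * C / ε ^ 2 / s) := by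
          gcongr
          exact hb2.le
    _ = ENNReal.ofReal ((6 * C + 11 * C / ε ^ 2) / Real.sqrt m) := by
          rw [add_zero, ← ENNReal.ofReal_add (by positivity) (by positivity), ← hs]
          congr 1
          ring

end Pool.Agent.W948.GP
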